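import Pool.Agent.Helper19.SQ.GoalsB

/-!
# Project SQ (MP_bb32d1_al), packet DLABS
-/

set_option autoImplicit false

open Finset
open Pool.Agent.Helper19.SQ Pool.Agent.Helper41.SQ

namespace Pool.Agent.Helper44.SQ

theorem coeff_Gser {R : Type} [CommRing R] (b : ℕ → R) (n : ℕ) :
    PowerSeries.coeff (n + 1) (Gser b) = b n := by
  rw [Gser, map_add, PowerSeries.coeff_succ_X_mul, PowerSeries.coeff_mk, PowerSeries.coeff_one,
    if_neg (Nat.succ_ne_zero n), zero_add]

theorem coeff_Gser_zero {R : Type} [CommRing R] (b : ℕ → R) :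
    PowerSeries.coeff 0 (Gser b) = 1 := by
  rw [Gser, map_add, PowerSeries.coeff_zero_X_mul, PowerSeries.coeff_one, if_pos rfl, add_zero]

theorem coeff_X_der {R : Type} [CommRing R] (F : PowerSeries R) (k : ℕ) :
    PowerSeries.coeff k (PowerSeries.X * PowerSeries.derivative R F) =
      PowerSeries.coeff k F * (k : R) := by
  cases k with
  | zero => rw [PowerSeries.coeff_zero_X_mul, Nat.cast_zero, mul_zero]
  | succ k =>
    rw [PowerSeries.coeff_succ_X_mul, PowerSeries.coeff_derivative]
    push_cast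
    rfl

theorem coeff_zero_Bser (q : ℂ) {l : ℕ} [NeZero l] (m : ZMod l → ℤ) :
    PowerSeries.coeff 0 (Bser q m : PowerSeries ℂ) = 1 := by
  have h : Units.map (PowerSeries.constantCoeff (R := ℂ) : PowerSeries ℂ →* ℂ) (Bser q m) = 1 := by
    unfold Bser
    rw [map_prod]
    refine prod_eq_one fun c _ => ?_
    rw [map_zpow]
    have h1 : Units.map (PowerSeries.constantCoeff (R := ℂ) : PowerSeries ℂ →* ℂ)
        (linU (qz q (2 * c))) = 1 := by
      apply Units.ext
      change PowerSeries.constantCoeff (R := ℂ) (1 - PowerSeries.C _ * PowerSeries.X) = 1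
      rw [map_sub, map_mul, PowerSeries.constantCoeff_X, mul_zero, sub_zero, map_one]
    rw [h1, one_zpow]
  have h2 := congrArg Units.val h
  rw [PowerSeries.coeff_zero_eq_constantCoeff_apply]
  exact h2

theorem pair_der {R : Type} [CommRing R] [Algebra ℂ R] (p : Polynomial ℂ) (f : ℕ → R) :
    pair p (fun k => f k * (k : R)) = pair (Polynomial.X * Polynomial.derivative p) f := by
  induction p using Polynomial.induction_on' with
  | add p p' h h' =>
    rw [pair_add, h, h', Polynomial.derivative_add, mul_add, pair_add]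
  | monomial n c =>
    rw [pair_monomial, Polynomial.derivative_monomial]
    cases n with
    | zero =>
      rw [Nat.cast_zero, mul_zero, smul_zero, Nat.cast_zero, mul_zero, Polynomial.monomial_zero_right,
        mul_zero, pair, Polynomial.sum_zero_index]
    | succ n =>
      rw [Nat.add_sub_cancel, Polynomial.X_mul_monomial, pair_monomial, mul_smul, Nat.cast_smul_eq_nsmul,
        nsmul_eq_mul, mul_comm]

theorem pair_alg {R : Type} [CommRing R] [Algebra ℂ R] (q : ℂ) {l : ℕ} [NeZero l]
    (m : ZMod l → ℤ) (p : Polynomial ℂ) :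
    pair p (fun k => algebraMap ℂ R (pim q m k)) =
      algebraMap ℂ R (∑ c : ZMod l, ((m (c + 1) - m c : ℤ) : ℂ) * p.eval (qz q (2 * c))) := by
  rw [pair_eq_range]
  have e1 : ∀ k, p.coeff k • algebraMap ℂ R (pim q m k) =
      algebraMap ℂ R (p.coeff k * pim q m k) := by
    intro k
    rw [map_mul, Algebra.smul_def]
  simp only [e1]
  rw [← map_sum]
  congr 1
  simp only [pim, mul_sum, Polynomial.eval_eq_sum_range]
  rw [sum_comm]
  refine sum_congr rfl fun c _ => sum_congr rfl fun k _ => ?_
  ring

theorem pair_mul {R : Type} [CommRing R] [Algebra ℂ R] (p : Polynomial ℂ) (f g : ℕ → R) (e : R) :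
    pair p (fun k => e * (f k - g k)) = pair p f * e - pair p g * e := by
  simp only [pair_eq_range, sum_mul]
  rw [← sum_sub_distrib]
  refine sum_congr rfl fun k _ => ?_
  rw [smul_mul_assoc, smul_mul_assoc, ← smul_sub]
  congr 1
  ring

theorem b_dlabs (hGDER : S_GDER) (hBDER : S_BDER) (hBINV : S_BINV) (hGOOD : S_GOOD) (hNU : S_NU)
    (hNILS : S_NILS) : S_DLABS := by
  intro R _ _ _ l _ q hq hodd m b β e K he hrel hK hnil
  obtain ⟨g1, g2, g3, g4, g5, g6, g7⟩ := hGOOD R l
  set f : ℂ →+* R := algebraMap ℂ R with hf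
  set G : PowerSeries R := Gser b with hG
  set B : PowerSeries R := PowerSeries.map f (Bser q m : PowerSeries ℂ) with hB
  set Bi : PowerSeries R := PowerSeries.map f (((Bser q m)⁻¹ : (PowerSeries ℂ)ˣ) : PowerSeries ℂ)
    with hBi
  set P : PowerSeries R := PowerSeries.mk (piv b β) with hP
  set P0 : PowerSeries R := PowerSeries.map f (PowerSeries.mk (pim q m)) with hP0
  have hBB : B * Bi = 1 := by
    rw [hB, hBi, ← map_mul, Units.mul_inv, map_one]
  have dG : PowerSeries.X * PowerSeries.derivative R G = P * G := hGDER R b β hrel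
  have dB : PowerSeries.X * PowerSeries.derivative R B = P0 * B := by
    rw [hP0, hB, ← map_mul, ← hBDER l q m]
    ext k
    rw [coeff_X_der, PowerSeries.coeff_map, PowerSeries.coeff_map, coeff_X_der, map_mul, map_natCast]
  -- the nilpotent series
  set ν : PowerSeries R := PowerSeries.C e * (G * Bi - 1) with hν
  have hν2 : ν = (PowerSeries.C e * (G - B)) * Bi := by
    rw [hν, mul_assoc, sub_mul, hBB]
  have hco : ∀ k, PowerSeries.coeff k (PowerSeries.C e * (G - B)) ∈ nilradical R := by
    intro k
    rw [PowerSeries.coeff_C_mul, map_sub]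
    cases k with
    | zero =>
      rw [hG, coeff_Gser_zero, hB, PowerSeries.coeff_map, coeff_zero_Bser, map_one, sub_self,
        mul_zero]
      exact Ideal.zero_mem _
    | succ k =>
      rw [hG, coeff_Gser, hB, PowerSeries.coeff_map, mul_comm]
      exact hnil k
  have hνn : IsNilpotent ν := by
    apply hNILS R
    intro k
    rw [hν2, PowerSeries.coeff_mul]
    exact Ideal.sum_mem (nilradical R) fun c _ => Ideal.mul_mem_right _ _ (hco c.1)
  obtain ⟨J, hJ⟩ := hνn
  have hnu := hNU R G B Bi P P0 e J he hBB dG dB hJ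
  -- Good
  have hG1 : Good l K G := by
    apply g7
    intro j
    have e1 : ∀ i, PowerSeries.coeff (i + j + 1) G = b (i + j) := fun i => coeff_Gser b _
    simp only [e1]
    exact hK j
  obtain ⟨M, hM⟩ := hBINV l q hq hodd m
  have hone : ∀ L, Good l L (1 : PowerSeries R) := by
    intro L
    refine g2 0 L 1 (Nat.zero_le _) ⟨1, ?_, ?_⟩
    · rw [Polynomial.natDegree_one]
      exact Nat.zero_le _
    · rw [pow_zero, one_mul, Polynomial.coe_one]
  have hL : Good l (K + M) ν := by
    rw [hν]
    apply g4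
    have e1 : G * Bi - 1 = G * Bi + PowerSeries.C (-1 : R) * 1 := by
      rw [map_neg, map_one, mul_one, sub_eq_add_neg]
    rw [e1]
    exact g3 _ _ _ (g1 _ _ _ _ hG1 (g5 _ _ hM)) (g4 _ _ _ (hone _))
  have hpow : ∀ i, Good l (i * (K + M)) (ν ^ i) := by
    intro i
    induction i with
    | zero =>
      rw [pow_zero]
      exact hone _
    | succ i ih =>
      rw [pow_succ, Nat.succ_mul]
      exact g1 _ _ _ _ ih hL
  have hsum : ∀ s ≤ J, Good l (J * (K + M)) (∑ i ∈ range s,
      ((-1 : ℂ) ^ i / ((i : ℂ) + 1)) • ν ^ (i + 1)) := by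
    intro s
    induction s with
    | zero =>
      intro _
      rw [sum_range_zero]
      have e1 : (0 : PowerSeries R) = PowerSeries.C (0 : R) * 1 := by
        rw [map_zero, zero_mul]
      rw [e1]
      exact g4 _ _ _ (hone _)
    | succ s ih =>
      intro hs
      rw [sum_range_succ]
      refine g3 _ _ _ (ih (by omega)) ?_
      have e1 : ∀ (c : ℂ) (F : PowerSeries R), c • F = PowerSeries.C (f c) * F := by
        intro c F
        ext k
        rw [PowerSeries.coeff_C_mul, PowerSeries.coeff_smul, Algebra.smul_def]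
      rw [e1]
      exact g4 _ _ _ (g2 _ _ _ (Nat.mul_le_mul_right _ (by omega)) (hpow (s + 1)))
  refine ⟨J * (K + M), fun p hp => ?_⟩
  obtain ⟨g, hg⟩ := hp
  set G1 : PowerSeries R := ∑ i ∈ range J, ((-1 : ℂ) ^ i / ((i : ℂ) + 1)) • ν ^ (i + 1) with hG1d
  have h6 := g6 _ G1 (hsum J le_rfl) g
  rw [← hg, ← pair_der] at h6
  have e2 : (fun k => PowerSeries.coeff k G1 * (k : R)) =
      fun k => e * (piv b β k - f (pim q m k)) := by
    funext k
    rw [← coeff_X_der, ← hnu, PowerSeries.coeff_C_mul, map_sub, hP, PowerSeries.coeff_mk, hP0,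
      PowerSeries.coeff_map, PowerSeries.coeff_mk]
  rw [e2, pair_mul, sub_eq_zero] at h6
  rw [h6, Algebra.smul_def]
  congr 1
  exact pair_alg q m p

end Pool.Agent.Helper44.SQ
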