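import Pool.Agent.Helper4.SQ.GoalsR2

set_option autoImplicit false
set_option linter.unusedSectionVars false

namespace Pool.Agent.Helper44.SQ

noncomputable section

open Matrix Pool.Agent.Helper19.SQ Pool.Agent.Helper34.SQ Pool.Agent.Helper41.SQ
open Pool.Agent.Helper4.SQ

section aux

variable {A : Type} [Ring A] [Algebra ℂ A] {ι : Type} [Fintype ι] [DecidableEq ι]

theorem pev_zero_of_dvd {X : Matrix ι ι A} {M h : Polynomial ℂ} (hM : pev M X = 0)
    (hd : M ∣ h) : pev h X = 0 := by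
  obtain ⟨r, rfl⟩ := hd
  unfold pev at *
  rw [map_mul, hM, zero_mul]

theorem vv_zero (Hs : A →ₐ[ℂ] Matrix ι ι A) : vv Hs (0 : Matrix ι ι A) = 0 := by
  ext K I
  simp [vv_apply]

theorem vv_sub (Hs : A →ₐ[ℂ] Matrix ι ι A) (Z Z' : Matrix ι ι A) :
    vv Hs (Z - Z') = vv Hs Z - vv Hs Z' := by
  ext K I
  simp [vv_apply, Finset.sum_sub_distrib]

theorem vv_smul (Hs : A →ₐ[ℂ] Matrix ι ι A) (c : ℂ) (Z : Matrix ι ι A) :
    vv Hs (c • Z) = c • vv Hs Z := by
  ext K I
  simp [vv_apply, Finset.smul_sum]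

theorem FO_zero (C : Core0 A ι) {h : Polynomial ℂ} (hh : pev h C.X = 0) : FO C h = 0 := by
  ext τ x
  rw [FO_apply, hh, mul_zero, Matrix.trace_zero, map_zero]
  rfl

theorem EO_zero (C : Core0 A ι) {h : Polynomial ℂ} (hh : pev h C.X = 0) : EO C h = 0 := by
  ext τ x
  rw [EO_apply, hh, vv_zero, mul_zero, Matrix.trace_zero, map_zero]
  rfl

theorem FO_sub (C : Core0 A ι) (g g' : Polynomial ℂ) : FO C (g - g') = FO C g - FO C g' := by
  ext τ x
  rw [LinearMap.sub_apply, LinearMap.sub_apply, FO_apply, FO_apply, FO_apply]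
  unfold pev
  rw [map_sub, mul_sub, Matrix.trace_sub, map_sub]

theorem EO_sub (C : Core0 A ι) (g g' : Polynomial ℂ) : EO C (g - g') = EO C g - EO C g' := by
  ext τ x
  rw [LinearMap.sub_apply, LinearMap.sub_apply, EO_apply, EO_apply, EO_apply]
  unfold pev
  rw [map_sub, vv_sub, mul_sub, Matrix.trace_sub, map_sub]

theorem pev_C_mul (c : ℂ) (g : Polynomial ℂ) (X : Matrix ι ι A) :
    pev (Polynomial.C c * g) X = c • pev g X := by
  unfold pev
  rw [map_mul, Polynomial.aeval_C, Algebra.smul_def]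

theorem FO_C_mul (C : Core0 A ι) (c : ℂ) (g : Polynomial ℂ) :
    FO C (Polynomial.C c * g) = c • FO C g := by
  ext τ x
  rw [LinearMap.smul_apply, LinearMap.smul_apply, FO_apply, FO_apply, pev_C_mul,
    Matrix.mul_smul, Matrix.trace_smul, map_smul]

theorem EO_C_mul (C : Core0 A ι) (c : ℂ) (g : Polynomial ℂ) :
    EO C (Polynomial.C c * g) = c • EO C g := by
  ext τ x
  rw [LinearMap.smul_apply, LinearMap.smul_apply, EO_apply, EO_apply, pev_C_mul, vv_smul,
    Matrix.mul_smul, Matrix.trace_smul, map_smul]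

theorem pair_sub {R : Type} [AddCommGroup R] [Module ℂ R] (p p' : Polynomial ℂ) (f : ℕ → R) :
    pair (p - p') f = pair p f - pair p' f := by
  rw [sub_eq_add_neg, pair_add, show -p' = (-1 : ℂ) • p' by simp, pair_smul]
  simp [sub_eq_add_neg]

theorem MO_sub (z z' : A) : MO (z - z') = MO z - MO z' := by
  ext τ x
  rw [LinearMap.sub_apply, LinearMap.sub_apply, MO_apply, MO_apply, MO_apply, sub_mul, map_sub]

theorem MO_zero : MO (0 : A) = 0 := by
  ext τ x
  rw [MO_apply, zero_mul, map_zero]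
  rfl

theorem pair_zero {R : Type} [AddCommGroup R] [Module ℂ R] (f : ℕ → R) :
    pair 0 f = 0 := by
  simp [pair]

theorem pair_cen (h : Polynomial ℂ) {f : ℕ → A} (hf : ∀ k a, f k * a = a * f k) (a : A) :
    pair h f * a = a * pair h f := by
  rw [pair_eq_range, Finset.sum_mul, Finset.mul_sum]
  refine Finset.sum_congr rfl fun k _ => ?_
  rw [smul_mul_assoc, mul_smul_comm, hf]

theorem pair_fix (φ : A ≃ₐ[ℂ] A) (h : Polynomial ℂ) {f : ℕ → A} (hf : ∀ k, φ (f k) = f k) :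
    φ (pair h f) = pair h f := by
  rw [pair_eq_range, map_sum]
  refine Finset.sum_congr rfl fun k _ => ?_
  rw [map_smul, hf]

end aux

section poly

variable {l : ℕ} [NeZero l] {q : ℂ}

theorem qz_two (h : q ^ l = 1) : qz q (2 : ZMod l) = q ^ 2 := by
  have := qz_nat (l := l) h 2
  simpa using this

theorem yc_comp1 (h : q ^ l = 1) (c : ZMod l) :
    (yc q c).comp (Polynomial.C (q ^ 2) * Polynomial.X) = yc q (c - 1) := by
  have hq : q ≠ 0 := by
    intro h0
    rw [h0, zero_pow (NeZero.ne l)] at h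
    exact zero_ne_one h
  unfold yc
  have h1 : (qz q (2 * c))⁻¹ * q ^ 2 = (qz q (2 * (c - 1)))⁻¹ := by
    have h2 : (2 * c : ZMod l) = 2 * (c - 1) + 2 := by ring
    rw [h2, qz_add h, qz_two h]
    have h3 := qz_ne_zero h (2 * (c - 1))
    field_simp
  rw [Polynomial.sub_comp, Polynomial.mul_comp, Polynomial.C_comp, Polynomial.X_comp,
    Polynomial.one_comp, ← mul_assoc, ← Polynomial.C_mul, h1]

theorem yc_comp2 (h : q ^ l = 1) (c : ZMod l) :
    (yc q c).comp (Polynomial.C (q⁻¹ ^ 2) * Polynomial.X) = yc q (c + 1) := by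
  have hq : q ≠ 0 := by
    intro h0
    rw [h0, zero_pow (NeZero.ne l)] at h
    exact zero_ne_one h
  unfold yc
  have h1 : (qz q (2 * c))⁻¹ * q⁻¹ ^ 2 = (qz q (2 * (c + 1)))⁻¹ := by
    have h2 : (2 * (c + 1) : ZMod l) = 2 * c + 2 := by ring
    rw [h2, qz_add h, qz_two h]
    have h3 := qz_ne_zero h (2 * c)
    field_simp
  rw [Polynomial.sub_comp, Polynomial.mul_comp, Polynomial.C_comp, Polynomial.X_comp,
    Polynomial.one_comp, ← mul_assoc, ← Polynomial.C_mul, h1]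

theorem dvd_prod {M : Polynomial ℂ} {p : ZMod l → Polynomial ℂ}
    (h1 : ∀ c c', M ∣ p c * p c' - if c = c' then p c else 0) (c c' : ZMod l) (r s : ℕ) :
    M ∣ (p c * yc q c ^ r) * (p c' * yc q c' ^ s)
      - if c = c' then p c' * yc q c' ^ (r + s) else 0 := by
  by_cases h : c = c'
  · subst h
    rw [if_pos rfl]
    have h2 := h1 c c
    rw [if_pos rfl] at h2
    have h3 : (p c * yc q c ^ r) * (p c * yc q c ^ s) - p c * yc q c ^ (r + s)
        = (p c * p c - p c) * yc q c ^ (r + s) := by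
      rw [pow_add]; ring
    rw [h3]
    exact Dvd.dvd.mul_right h2 _
  · rw [if_neg h, sub_zero]
    have h2 := h1 c c'
    rw [if_neg h, sub_zero] at h2
    have h3 : (p c * yc q c ^ r) * (p c' * yc q c' ^ s)
        = (p c * p c') * (yc q c ^ r * yc q c' ^ s) := by ring
    rw [h3]
    exact Dvd.dvd.mul_right h2 _

theorem dvd_Dq (h : q ^ l = 1) {M : Polynomial ℂ} {p : ZMod l → Polynomial ℂ}
    (h1 : ∀ c c', M ∣ p c * p c' - if c = c' then p c else 0)
    (h4 : ∀ c, M ∣ (p c).comp (Polynomial.C (q ^ 2) * Polynomial.X) - p (c - 1))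
    (h5 : ∀ c, M ∣ (p c).comp (Polynomial.C (q⁻¹ ^ 2) * Polynomial.X) - p (c + 1))
    (c c' : ZMod l) (r s : ℕ) :
    M ∣ Dq q (p c * yc q c ^ r) * (p c' * yc q c' ^ s)
      - Polynomial.C (ac c c') * (p c' * yc q c' ^ (r + s)) := by
  have a1 := dvd_prod (q := q) h1 c c' r s
  have a2 := dvd_prod (q := q) h1 (c - 1) c' r s
  have a3 := dvd_prod (q := q) h1 (c + 1) c' r s
  have b2 : M ∣ ((p c).comp (Polynomial.C (q ^ 2) * Polynomial.X) - p (c - 1))
      * (yc q (c - 1) ^ r * (p c' * yc q c' ^ s)) := Dvd.dvd.mul_right (h4 c) _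
  have b3 : M ∣ ((p c).comp (Polynomial.C (q⁻¹ ^ 2) * Polynomial.X) - p (c + 1))
      * (yc q (c + 1) ^ r * (p c' * yc q c' ^ s)) := Dvd.dvd.mul_right (h5 c) _
  have key := dvd_sub (dvd_sub (dvd_sub (dvd_sub (Dvd.dvd.mul_left a1 (Polynomial.C 2)) b2) a2) b3) a3
  convert key using 1
  unfold Dq ac
  rw [Polynomial.mul_comp, Polynomial.mul_comp, Polynomial.pow_comp, Polynomial.pow_comp,
    yc_comp1 h, yc_comp2 h]
  generalize hT : p c' * yc q c' ^ (r + s) = T
  rw [show (if c - 1 = c' then T else 0) = if c' = c - 1 then T else 0 from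
      if_congr eq_comm rfl rfl,
    show (if c + 1 = c' then T else 0) = if c' = c + 1 then T else 0 from
      if_congr eq_comm rfl rfl]
  split_ifs <;>
    simp only [map_sub, map_mul, map_one, map_zero, mul_one, mul_zero] <;> ring

theorem dvd_high {M : Polynomial ℂ} {p : ZMod l → Polynomial ℂ} (h : q ^ l = 1) {K : ℕ}
    (h3 : ∀ c, M ∣ (Polynomial.X - Polynomial.C (qz q (2 * c))) ^ K * p c) (c : ZMod l) {r : ℕ}
    (hr : K ≤ r) : M ∣ p c * yc q c ^ r := by
  have hy : yc q c = Polynomial.C ((qz q (2 * c))⁻¹)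
      * (Polynomial.X - Polynomial.C (qz q (2 * c))) := by
    unfold yc
    rw [mul_sub, ← Polynomial.C_mul, inv_mul_cancel₀ (qz_ne_zero h _), Polynomial.C_1]
  obtain ⟨t, rfl⟩ := Nat.exists_eq_add_of_le hr
  have h4 : p c * yc q c ^ (K + t) = ((Polynomial.X - Polynomial.C (qz q (2 * c))) ^ K * p c)
      * (Polynomial.C ((qz q (2 * c))⁻¹) ^ K * yc q c ^ t) := by
    rw [pow_add, hy, mul_pow]
    ring
  rw [h4]
  exact Dvd.dvd.mul_right (h3 c) _

end poly

theorem sCUR (hOPT : S_OPT) (hOPG : S_OPG) (hOPPF : S_OPPF) (hOPEF : S_OPEF) (hC0 : S_CORE0)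
    (hPCX : S_PCX) : S_CUR := by
  intro A _ _ ι _ _ l _ C q hQ hq hodd h3l K hK hev hid τ hτ
  obtain ⟨p1, _, p3, p4, p5⟩ := hPCX l q hq hodd K C.pc hev hid
  have hql : q ^ l = 1 := hq.pow_eq_one
  have hcore := hC0 A ι C.toCore0
  have hcen : ∀ k a, C.toCore0.pi k * a = a * C.toCore0.pi k := hcore.2.2.2.2.2.2.2.2.2.2.2.1
  have hfix : ∀ k, C.φ (C.toCore0.pi k) = C.toCore0.pi k := hcore.2.2.2.2.2.2.2.2.2.2.2.2
  obtain ⟨oF, oE, oM⟩ := hOPT A ι C.toCore0
  have hM : pev ((Polynomial.X ^ l - 1 : Polynomial ℂ) ^ K) C.X = 0 := by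
    unfold pev
    rw [map_pow, map_sub, map_pow, Polynomial.aeval_X, map_one, hK]
  -- vanishing modulo M
  have vF : ∀ g g' : Polynomial ℂ, (Polynomial.X ^ l - 1 : Polynomial ℂ) ^ K ∣ g - g' →
      FO C.toCore0 g = FO C.toCore0 g' := by
    intro g g' hd
    have := FO_zero C.toCore0 (pev_zero_of_dvd hM hd)
    rwa [FO_sub, sub_eq_zero] at this
  have vE : ∀ g g' : Polynomial ℂ, (Polynomial.X ^ l - 1 : Polynomial ℂ) ^ K ∣ g - g' →
      EO C.toCore0 g = EO C.toCore0 g' := by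
    intro g g' hd
    have := EO_zero C.toCore0 (pev_zero_of_dvd hM hd)
    rwa [EO_sub, sub_eq_zero] at this
  have vM : ∀ g g' : Polynomial ℂ, (Polynomial.X ^ l - 1 : Polynomial ℂ) ^ K ∣ g - g' →
      ∀ σ ∈ Tinv C.toCore0, MO (pair g C.toCore0.pi) σ = MO (pair g' C.toCore0.pi) σ := by
    intro g g' hd σ hσ
    have h1 := hOPEF A ι C.toCore0 σ hσ.1 (g - g')
    have h2 := FO_zero C.toCore0 (pev_zero_of_dvd hM hd)
    rw [h2] at h1
    simp only [LinearMap.zero_apply, map_zero, sub_zero] at h1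
    have h3 : MO (pair (g - g') C.toCore0.pi) σ = 0 := by
      have := congrArg (fun t => -t) h1
      simpa using this.symm
    rw [pair_sub, MO_sub, LinearMap.sub_apply, sub_eq_zero] at h3
    exact h3
  refine ⟨?_, ?_, ?_, ?_, ?_, ?_⟩
  · intro c c' r s
    have h1 := hOPG A ι C.toCore0 l q hQ hq hodd h3l τ hτ (C.pc c * yc q c ^ r)
      (C.pc c' * yc q c' ^ s)
    unfold Ecr Fcr Hcr
    rw [h1]
    have h2 := vM _ _ (dvd_prod (q := q) p1 c c' r s) τ hτ
    rw [h2]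
    by_cases h : c = c'
    · subst h
      simp only [if_true, LinearMap.neg_apply]
    · simp only [if_neg h, pair_zero, MO_zero, LinearMap.zero_apply, neg_zero]
  · intro c c' r s
    have h1 := (hOPPF A ι C.toCore0 q hQ τ (C.pc c * yc q c ^ r) (C.pc c' * yc q c' ^ s)).1
    have h2 := vF _ _ (dvd_Dq hql p1 p4 p5 c c' r s)
    rw [h2, FO_C_mul] at h1
    unfold Fcr Hcr
    rw [LinearMap.neg_apply, LinearMap.neg_apply, map_neg, neg_smul, ← LinearMap.smul_apply,
      ← h1]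
    abel
  · intro c c' r s
    have h1 := (hOPPF A ι C.toCore0 q hQ τ (C.pc c * yc q c ^ r) (C.pc c' * yc q c' ^ s)).2
    have h2 := vE _ _ (dvd_Dq hql p1 p4 p5 c c' r s)
    rw [h2, EO_C_mul] at h1
    unfold Ecr Hcr
    rw [LinearMap.neg_apply, LinearMap.neg_apply, map_neg, ← LinearMap.smul_apply, ← h1]
    abel
  · intro c c' r s
    unfold Hcr
    ext x
    simp only [LinearMap.neg_apply, map_neg, neg_neg, MO_apply]
    rw [← mul_assoc, ← mul_assoc, pair_cen _ hcen]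
  · intro c r hr
    have hd : (Polynomial.X ^ l - 1 : Polynomial ℂ) ^ K ∣ C.pc c * yc q c ^ r - 0 := by
      rw [sub_zero]
      exact dvd_high hql p3 c hr
    refine ⟨?_, ?_, ?_⟩
    · unfold Ecr
      rw [EO_zero C.toCore0 (pev_zero_of_dvd hM (dvd_high hql p3 c hr))]
      rfl
    · unfold Fcr
      rw [FO_zero C.toCore0 (pev_zero_of_dvd hM (dvd_high hql p3 c hr))]
      rfl
    · unfold Hcr
      rw [LinearMap.neg_apply, vM _ _ hd τ hτ, pair_zero, MO_zero]
      simp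
  · intro c r
    refine ⟨oE _ τ hτ, oF _ τ hτ, ?_⟩
    unfold Hcr
    rw [LinearMap.neg_apply]
    exact Submodule.neg_mem _ (oM _ (pair_cen _ hcen) (pair_fix C.φ _ hfix) τ hτ)

end

end Pool.Agent.Helper44.SQ
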